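import Mathlib

/-!
# Linear operators which increase a quadratic form are hyperbolic (project MH of helper318)
-/

set_option autoImplicit false

open Set Filter Topology Module

namespace Pool.Agent.Y590.MH

variable {W : Type} [NormedAddCommGroup W] [NormedSpace ℝ W]

/-- the vectors with a bounded forward orbit -/
def Bd (L : W ≃ₗ[ℝ] W) : Submodule ℝ W where
  carrier := {w | ∃ C : ℝ, ∀ n : ℕ, ‖(L ^ n) w‖ ≤ C}
  zero_mem' := ⟨0, fun n => by rw [map_zero, norm_zero]⟩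
  add_mem' := by
    rintro a b ⟨C, hC⟩ ⟨C', hC'⟩
    exact ⟨C + C', fun n => by
      rw [map_add]
      exact (norm_add_le _ _).trans (add_le_add (hC n) (hC' n))⟩
  smul_mem' := by
    rintro r a ⟨C, hC⟩
    exact ⟨‖r‖ * C, fun n => by
      rw [map_smul, norm_smul]
      exact mul_le_mul_of_nonneg_left (hC n) (norm_nonneg _)⟩

theorem mem_Bd {L : W ≃ₗ[ℝ] W} {w : W} : w ∈ Bd L ↔ ∃ C : ℝ, ∀ n : ℕ, ‖(L ^ n) w‖ ≤ C := Iff.rfl

theorem pow_succ_app (L : W ≃ₗ[ℝ] W) (n : ℕ) (w : W) : (L ^ (n + 1)) w = (L ^ n) (L w) := by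
  rw [pow_succ]
  rfl

theorem pow_succ_app' (L : W ≃ₗ[ℝ] W) (n : ℕ) (w : W) : (L ^ (n + 1)) w = L ((L ^ n) w) := by
  rw [pow_succ']
  rfl

theorem Bd_map {L : W ≃ₗ[ℝ] W} {w : W} (h : w ∈ Bd L) : L w ∈ Bd L := by
  obtain ⟨C, hC⟩ := h
  exact ⟨C, fun n => by rw [← pow_succ_app]; exact hC _⟩

theorem Bd_symm {L : W ≃ₗ[ℝ] W} {w : W} (h : w ∈ Bd L) : L.symm w ∈ Bd L := by
  obtain ⟨C, hC⟩ := h
  refine ⟨max C ‖L.symm w‖, fun n => ?_⟩
  rcases n with _ | n
  · rw [pow_zero]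
    exact le_max_right _ _
  · rw [pow_succ_app, LinearEquiv.apply_symm_apply]
    exact (hC n).trans (le_max_left _ _)

theorem Bd_pow {L : W ≃ₗ[ℝ] W} {w : W} (h : w ∈ Bd L) (n : ℕ) : (L ^ n) w ∈ Bd L := by
  induction n with
  | zero => rw [pow_zero]; exact h
  | succ n ih => rw [pow_succ_app']; exact Bd_map ih

/-- the operator `L` increases the form `Q` -/
structure Inc (L : W ≃ₗ[ℝ] W) (Q : LinearMap.BilinForm ℝ W) (K δ : ℝ) : Prop where
  pos : 0 < δ
  bd : ∀ w, |Q w w| ≤ K * ‖w‖ ^ 2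
  inc : ∀ w, Q w w + δ * ‖w‖ ^ 2 ≤ Q (L w) (L w)

variable {L : W ≃ₗ[ℝ] W} {Q : LinearMap.BilinForm ℝ W} {K δ : ℝ}

theorem tel (h : Inc L Q K δ) (n : ℕ) (w : W) :
    Q w w + δ * ∑ j ∈ Finset.range n, ‖(L ^ j) w‖ ^ 2 ≤ Q ((L ^ n) w) ((L ^ n) w) := by
  induction n with
  | zero => simp
  | succ n ih =>
    rw [Finset.sum_range_succ, pow_succ_app']
    have h1 := h.inc ((L ^ n) w)
    linarith

/-- the form is negative on the bounded vectors -/
theorem neg_of_bd (h : Inc L Q K δ) {w : W} (hw : w ∈ Bd L) : Q w w + δ * ‖w‖ ^ 2 ≤ 0 := by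
  obtain ⟨C, hC⟩ := hw
  have hδ := h.pos
  have hC0 : 0 ≤ C := (norm_nonneg _).trans (hC 0)
  have hbd : ∀ n, Q ((L ^ n) w) ((L ^ n) w) ≤ K * ‖(L ^ n) w‖ ^ 2 := fun n =>
    (le_abs_self _).trans (h.bd _)
  have hsum : Summable fun j : ℕ => ‖(L ^ j) w‖ ^ 2 := by
    refine summable_of_sum_range_le (c := (|K| * C ^ 2 - Q w w) / δ) (fun _ => by positivity)
      fun n => ?_
    rw [le_div_iff₀ hδ]
    have h1 := tel h n w
    have h2 : K * ‖(L ^ n) w‖ ^ 2 ≤ |K| * C ^ 2 := by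
      calc K * ‖(L ^ n) w‖ ^ 2 ≤ |K| * ‖(L ^ n) w‖ ^ 2 :=
            mul_le_mul_of_nonneg_right (le_abs_self _) (by positivity)
        _ ≤ |K| * C ^ 2 := mul_le_mul_of_nonneg_left
            (pow_le_pow_left₀ (norm_nonneg _) (hC n) 2) (abs_nonneg _)
    have h3 := hbd n
    linarith
  have hlim : Tendsto (fun n : ℕ => K * ‖(L ^ (n + 1)) w‖ ^ 2) atTop (𝓝 0) := by
    have h1 := (hsum.tendsto_atTop_zero.comp (tendsto_add_atTop_nat 1)).const_mul K
    rw [mul_zero] at h1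
    exact h1
  refine ge_of_tendsto hlim (Filter.Eventually.of_forall fun n => ?_)
  have h1 := tel h (n + 1) w
  rw [Finset.sum_range_succ'] at h1
  have h2 : 0 ≤ ∑ k ∈ Finset.range n, ‖(L ^ (k + 1)) w‖ ^ 2 :=
    Finset.sum_nonneg fun _ _ => by positivity
  have h3 : ‖(L ^ 0) w‖ = ‖w‖ := by rw [pow_zero]; rfl
  rw [h3] at h1
  have h4 := hbd (n + 1)
  nlinarith

/-- exponential decay -/
theorem decay (h : Inc L Q K δ) (hK : δ ≤ K) {w : W} (hw : w ∈ Bd L) (n : ℕ) :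
    δ * ‖(L ^ n) w‖ ^ 2 ≤ (1 - δ / K) ^ n * (K * ‖w‖ ^ 2) := by
  have hδ := h.pos
  have hK0 : 0 < K := hδ.trans_le hK
  have hq : 0 ≤ 1 - δ / K := by
    rw [sub_nonneg, div_le_one hK0]
    exact hK
  have key : ∀ n, -Q ((L ^ n) w) ((L ^ n) w) ≤ (1 - δ / K) ^ n * (K * ‖w‖ ^ 2) := by
    intro n
    induction n with
    | zero =>
      rw [pow_zero, pow_zero, one_mul]
      exact (neg_le_abs _).trans (h.bd w)
    | succ n ih =>
      have h1 := h.inc ((L ^ n) w)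
      rw [pow_succ_app']
      have h2 : -Q ((L ^ n) w) ((L ^ n) w) / K ≤ ‖(L ^ n) w‖ ^ 2 := by
        rw [div_le_iff₀ hK0, mul_comm]
        exact (neg_le_abs _).trans (h.bd _)
      have h3 : -Q (L ((L ^ n) w)) (L ((L ^ n) w)) ≤
          (1 - δ / K) * -Q ((L ^ n) w) ((L ^ n) w) := by
        have h4 : (1 - δ / K) * -Q ((L ^ n) w) ((L ^ n) w) =
            -Q ((L ^ n) w) ((L ^ n) w) - δ * (-Q ((L ^ n) w) ((L ^ n) w) / K) := by
          field_simp
          ring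
        rw [h4]
        have h5 := mul_le_mul_of_nonneg_left h2 hδ.le
        linarith
      refine h3.trans ?_
      rw [pow_succ']
      have h6 := mul_le_mul_of_nonneg_left ih hq
      linarith
  have h1 := neg_of_bd h (Bd_pow hw n)
  have h2 := key n
  linarith

theorem exists_split [FiniteDimensional ℝ W] (Q : LinearMap.BilinForm ℝ W)
    (hs : ∀ v w, Q v w = Q w v) : ∃ N N' : Submodule ℝ W, (∀ w ∈ N, Q w w ≤ 0) ∧
      (∀ w ∈ N', 0 ≤ Q w w) ∧ finrank ℝ W ≤ finrank ℝ N + finrank ℝ N' := by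
  have hinv : Invertible (2 : ℝ) := invertibleOfNonzero two_ne_zero
  obtain ⟨v, hv⟩ := LinearMap.BilinForm.exists_orthogonal_basis (B := Q)
    ⟨fun x y => by simpa using hs x y⟩
  rw [LinearMap.isOrthoᵢ_def] at hv
  have hval : ∀ w, Q w w = ∑ i, (v.repr w i) ^ 2 * Q (v i) (v i) := by
    intro w
    conv_lhs => rw [← v.sum_repr w]
    rw [map_sum]
    refine Finset.sum_congr rfl fun i _ => ?_
    rw [map_smul, map_sum, LinearMap.sum_apply, Finset.sum_eq_single i]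
    · rw [map_smul, LinearMap.smul_apply, smul_eq_mul, smul_eq_mul]
      ring
    · intro j _ hj
      rw [map_smul, LinearMap.smul_apply, hv j i hj, smul_zero]
    · intro hi
      exact absurd (Finset.mem_univ i) hi
  have hspan : ∀ (I : Set (Fin (finrank ℝ W))) (w : W), w ∈ Submodule.span ℝ (v '' I) →
      ∀ i, i ∉ I → v.repr w i = 0 := by
    intro I w hw i hi
    rw [v.mem_span_image] at hw
    by_contra h
    exact hi (hw (Finsupp.mem_support_iff.2 h))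
  refine ⟨Submodule.span ℝ (v '' {i | Q (v i) (v i) ≤ 0}),
    Submodule.span ℝ (v '' {i | Q (v i) (v i) ≤ 0}ᶜ), ?_, ?_, ?_⟩
  · intro w hw
    rw [hval]
    refine Finset.sum_nonpos fun i _ => ?_
    by_cases hi : Q (v i) (v i) ≤ 0
    · exact mul_nonpos_of_nonneg_of_nonpos (sq_nonneg _) hi
    · rw [hspan _ w hw i hi]
      simp
  · intro w hw
    rw [hval]
    refine Finset.sum_nonneg fun i _ => ?_
    by_cases hi : Q (v i) (v i) ≤ 0
    · rw [hspan _ w hw i (fun h => h hi)]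
      simp
    · exact mul_nonneg (sq_nonneg _) (not_le.1 hi).le
  · have h1 : Submodule.span ℝ (v '' {i | Q (v i) (v i) ≤ 0}) ⊔
        Submodule.span ℝ (v '' {i | Q (v i) (v i) ≤ 0}ᶜ) = ⊤ := by
      rw [← Submodule.span_union, ← image_union, union_compl_self, image_univ, v.span_eq]
    have h2 := Submodule.finrank_add_le_finrank_add_finrank
      (Submodule.span ℝ (v '' {i | Q (v i) (v i) ≤ 0}))
      (Submodule.span ℝ (v '' {i | Q (v i) (v i) ≤ 0}ᶜ))
    rw [h1, finrank_top] at h2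
    exact h2

/-- there are many bounded vectors -/
theorem dim_le [FiniteDimensional ℝ W] (h : Inc L Q K δ) (N : Submodule ℝ W)
    (hN : ∀ w ∈ N, Q w w ≤ 0) : finrank ℝ N ≤ finrank ℝ (Bd L) := by
  by_contra hlt
  rw [not_le] at hlt
  have hδ := h.pos
  obtain ⟨F, hF⟩ := (Bd L).exists_isCompl
  have hdim := Submodule.finrank_add_eq_of_isCompl hF
  have _ : ProperSpace W := FiniteDimensional.proper ℝ W
  let C : ℕ → Set W := fun n =>
    {w | w ∈ F ∧ ‖w‖ = 1 ∧ ∀ j < n, δ * ‖(L ^ j) w‖ ^ 2 ≤ K}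
  have hcont : ∀ j : ℕ, Continuous fun w : W => ‖(L ^ j) w‖ := fun j =>
    (LinearMap.continuous_of_finiteDimensional ((L ^ j : W ≃ₗ[ℝ] W) : W →ₗ[ℝ] W)).norm
  have hclosed : ∀ n, IsClosed (C n) := by
    intro n
    have h1 : C n = (F : Set W) ∩ {w | ‖w‖ = 1} ∩
        ⋂ j, ⋂ (_ : j < n), {w | δ * ‖(L ^ j) w‖ ^ 2 ≤ K} := by
      ext w
      simp only [C, mem_ofPred_eq, mem_inter_iff, mem_iInter, SetLike.mem_coe, and_assoc]
    rw [h1]
    refine (F.closed_of_finiteDimensional.inter (isClosed_eq continuous_norm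
      continuous_const)).inter (isClosed_iInter fun j => isClosed_iInter fun _ => ?_)
    exact isClosed_le (continuous_const.mul ((hcont j).pow 2)) continuous_const
  have hcomp : IsCompact (C 0) := by
    refine (isCompact_sphere (0 : W) 1).of_isClosed_subset (hclosed 0) fun w hw => ?_
    rw [mem_sphere_zero_iff_norm]
    exact hw.2.1
  have hne : ∀ n, (C n).Nonempty := by
    intro n
    set M : Submodule ℝ W := N.comap ((L ^ n : W ≃ₗ[ℝ] W) : W →ₗ[ℝ] W) with hM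
    have hMdim : finrank ℝ M = finrank ℝ N := by
      rw [hM, Submodule.comap_equiv_eq_map_symm]
      exact LinearEquiv.finrank_map_eq _ _
    have h1 : M ⊓ F ≠ ⊥ := by
      intro h0
      have h2 := Submodule.finrank_sup_add_finrank_inf_eq M F
      rw [h0, finrank_bot, add_zero, hMdim] at h2
      have h3 := Submodule.finrank_le (M ⊔ F)
      omega
    obtain ⟨x, hx, hx0⟩ := (Submodule.ne_bot_iff _).1 h1
    have hxn : ‖x‖ ≠ 0 := norm_ne_zero_iff.2 hx0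
    set w := ‖x‖⁻¹ • x with hw
    have hwM : w ∈ M := M.smul_mem _ hx.1
    have hwF : w ∈ F := F.smul_mem _ hx.2
    have hw1 : ‖w‖ = 1 := by
      rw [hw, norm_smul, norm_inv, norm_norm, inv_mul_cancel₀ hxn]
    refine ⟨w, hwF, hw1, fun j hj => ?_⟩
    have h2 := tel h n w
    have h3 : Q ((L ^ n) w) ((L ^ n) w) ≤ 0 := hN _ hwM
    have h4 : ‖(L ^ j) w‖ ^ 2 ≤ ∑ j ∈ Finset.range n, ‖(L ^ j) w‖ ^ 2 :=
      Finset.single_le_sum (f := fun j => ‖(L ^ j) w‖ ^ 2) (fun _ _ => by positivity)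
        (Finset.mem_range.2 hj)
    have h5 := (neg_le_abs _).trans (h.bd w)
    rw [hw1] at h5
    have h6 := mul_le_mul_of_nonneg_left h4 hδ.le
    linarith
  obtain ⟨w, hw⟩ := IsCompact.nonempty_iInter_of_sequence_nonempty_isCompact_isClosed C
    (fun n w hw => ⟨hw.1, hw.2.1, fun j hj => hw.2.2 j (by omega)⟩) hne hcomp hclosed
  rw [mem_iInter] at hw
  have hwB : w ∈ Bd L := by
    refine ⟨√(K / δ), fun n => ?_⟩
    apply Real.le_sqrt_of_sq_le
    rw [le_div_iff₀ hδ, mul_comm]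
    exact (hw (n + 1)).2.2 n (Nat.lt_succ_self n)
  have hw0 : w ∈ (Bd L ⊓ F : Submodule ℝ W) := ⟨hwB, (hw 0).1⟩
  rw [hF.disjoint.eq_bot, Submodule.mem_bot] at hw0
  have h1 := (hw 0).2.1
  rw [hw0, norm_zero] at h1
  exact zero_ne_one h1

/-- the inverse operator increases the opposite form -/
theorem Inc.inv (h : Inc L Q K δ) {M : ℝ} (hM : 0 < M) (hL : ∀ w, ‖L w‖ ≤ M * ‖w‖) :
    Inc L.symm (-Q) K (δ / M ^ 2) := by
  have hδ := h.pos
  refine ⟨by positivity, fun w => ?_, fun w => ?_⟩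
  · rw [LinearMap.neg_apply, LinearMap.neg_apply, abs_neg]
    exact h.bd w
  · rw [LinearMap.neg_apply, LinearMap.neg_apply, LinearMap.neg_apply, LinearMap.neg_apply]
    have h1 := h.inc (L.symm w)
    rw [LinearEquiv.apply_symm_apply] at h1
    have h2 := hL (L.symm w)
    rw [LinearEquiv.apply_symm_apply] at h2
    have h3 : δ / M ^ 2 * ‖w‖ ^ 2 ≤ δ * ‖L.symm w‖ ^ 2 := by
      rw [div_mul_eq_mul_div, div_le_iff₀ (by positivity)]
      have h4 : ‖w‖ ^ 2 ≤ (M * ‖L.symm w‖) ^ 2 := pow_le_pow_left₀ (norm_nonneg _) h2 2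
      calc δ * ‖w‖ ^ 2 ≤ δ * (M * ‖L.symm w‖) ^ 2 := mul_le_mul_of_nonneg_left h4 hδ.le
        _ = _ := by ring
    linarith

/-- bounded and backward bounded vectors span the space -/
theorem isCompl_Bd [FiniteDimensional ℝ W] (h : Inc L Q K δ) (hs : ∀ v w, Q v w = Q w v) {M : ℝ}
    (hM : 0 < M) (hL : ∀ w, ‖L w‖ ≤ M * ‖w‖) : IsCompl (Bd L) (Bd L.symm) := by
  have h' := h.inv hM hL
  obtain ⟨N, N', hN, hN', hd⟩ := exists_split Q hs
  have h1 := dim_le h N hN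
  have h2 := dim_le h' N' fun w hw => by
    rw [LinearMap.neg_apply, LinearMap.neg_apply]
    exact neg_nonpos.2 (hN' w hw)
  rw [Submodule.isCompl_iff_disjoint _ _ (by omega), Submodule.disjoint_def]
  intro w hw hw'
  have h3 := neg_of_bd h hw
  have h4 := neg_of_bd h' hw'
  rw [LinearMap.neg_apply, LinearMap.neg_apply] at h4
  have h5 : (δ + δ / M ^ 2) * ‖w‖ ^ 2 ≤ 0 := by linarith
  have h6 : 0 < δ + δ / M ^ 2 := add_pos h.pos h'.pos
  have h7 : ‖w‖ ^ 2 ≤ 0 := by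
    by_contra hc
    rw [not_le] at hc
    have := mul_pos h6 hc
    linarith
  have h8 : ‖w‖ = 0 := by
    have := le_antisymm h7 (by positivity)
    exact pow_eq_zero_iff (n := 2) (by norm_num) |>.1 this
  exact norm_eq_zero.1 h8

/-- exponential decay, final form -/
theorem decay' (h : Inc L Q K δ) (hK : δ ≤ K) {w : W} (hw : w ∈ Bd L) (n : ℕ) :
    ‖(L ^ n) w‖ ≤ √(K / δ) * √(1 - δ / K) ^ n * ‖w‖ := by
  have hδ := h.pos
  have hK0 : 0 < K := hδ.trans_le hK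
  have hq : 0 ≤ 1 - δ / K := by
    rw [sub_nonneg, div_le_one hK0]
    exact hK
  have h1 := decay h hK hw n
  have h2 : ‖(L ^ n) w‖ ^ 2 ≤ (√(K / δ) * √(1 - δ / K) ^ n * ‖w‖) ^ 2 := by
    rw [mul_pow, mul_pow, ← pow_mul, mul_comm n 2, pow_mul, Real.sq_sqrt (by positivity),
      Real.sq_sqrt hq]
    calc ‖(L ^ n) w‖ ^ 2 = (δ * ‖(L ^ n) w‖ ^ 2) / δ := by field_simp
      _ ≤ ((1 - δ / K) ^ n * (K * ‖w‖ ^ 2)) / δ := div_le_div_of_nonneg_right h1 hδ.le
      _ = _ := by field_simp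
  exact (pow_le_pow_iff_left₀ (norm_nonneg _) (by positivity) two_ne_zero).1 h2

end Pool.Agent.Y590.MH
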