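import Pool.Agent.Y318.MH.Stm
import Pool.Agent.Y590.MH.One

/-!
# A linear cocycle over a permutation of a finite set which increases a quadratic form is
hyperbolic (project MH of helper318)
-/

set_option autoImplicit false

open Set Filter Topology Module

namespace Pool.Agent.Y590.MH

open Pool.Agent.Y318.MH

section

variable {V : Type} [NormedAddCommGroup V] [NormedSpace ℝ V] {ι : Type}

/-- the operator induced by the cocycle on the sections -/
def big (g : ι ≃ ι) (a : ι → V ≃L[ℝ] V) : (ι → V) ≃ₗ[ℝ] (ι → V) where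
  toFun φ y := a (g.symm y) (φ (g.symm y))
  map_add' φ ψ := by
    funext y
    exact map_add (a (g.symm y)) _ _
  map_smul' r φ := by
    funext y
    exact map_smul (a (g.symm y)) r _
  invFun ψ x := (a x).symm (ψ (g x))
  left_inv φ := by
    funext x
    simp
  right_inv ψ := by
    funext y
    simp

theorem big_apply (g : ι ≃ ι) (a : ι → V ≃L[ℝ] V) (φ : ι → V) (y : ι) :
    big g a φ y = a (g.symm y) (φ (g.symm y)) := rfl

theorem big_apply' (g : ι ≃ ι) (a : ι → V ≃L[ℝ] V) (φ : ι → V) (x : ι) :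
    big g a φ (g x) = a x (φ x) := by
  rw [big_apply, Equiv.symm_apply_apply]

theorem big_symm (g : ι ≃ ι) (a : ι → V ≃L[ℝ] V) :
    (big g a).symm = big g.symm (fun y => (a (g.symm y)).symm) := by
  ext φ y
  change (a y).symm (φ (g y)) = (a (g.symm (g y))).symm (φ (g y))
  rw [Equiv.symm_apply_apply]

variable [DecidableEq ι]

theorem big_single (g : ι ≃ ι) (a : ι → V ≃L[ℝ] V) (x : ι) (v : V) :
    big g a (Pi.single x v) = Pi.single (g x) (a x v) := by
  funext y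
  obtain ⟨z, rfl⟩ := g.surjective y
  rw [big_apply']
  by_cases hz : z = x
  · subst hz
    rw [Pi.single_eq_same, Pi.single_eq_same]
  · rw [Pi.single_eq_of_ne hz, Pi.single_eq_of_ne (fun h => hz (g.injective h)), map_zero]

variable [Fintype ι]

theorem norm_cocy (g : ι ≃ ι) (a : ι → V ≃L[ℝ] V) (n : ℕ) (x : ι) (v : V) :
    ‖((big g a) ^ n) (Pi.single x v)‖ =
      ‖cocy g (fun y => (a y : V →L[ℝ] V)) n x v‖ := by
  induction n generalizing x v with
  | zero =>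
    rw [pow_zero]
    change ‖(Pi.single x v : ι → V)‖ = ‖v‖
    rw [Pi.norm_single]
  | succ n ih =>
    rw [pow_succ_app, big_single, ih]
    rfl

theorem cut_le (g : ι ≃ ι) (a : ι → V ≃L[ℝ] V) (n : ℕ) (x : ι) (φ : ι → V) :
    ‖((big g a) ^ n) (Pi.single x (φ x))‖ ≤ ‖((big g a) ^ n) φ‖ := by
  induction n generalizing x φ with
  | zero =>
    rw [pow_zero]
    change ‖(Pi.single x (φ x) : ι → V)‖ ≤ ‖φ‖
    rw [Pi.norm_single]
    exact norm_le_pi_norm φ x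
  | succ n ih =>
    rw [pow_succ_app, pow_succ_app, big_single, ← big_apply' g a φ x]
    exact ih (g x) (big g a φ)

theorem cut_mem (g : ι ≃ ι) (a : ι → V ≃L[ℝ] V) (x : ι) {φ : ι → V} (h : φ ∈ Bd (big g a)) :
    (Pi.single x (φ x) : ι → V) ∈ Bd (big g a) := by
  obtain ⟨C, hC⟩ := h
  exact ⟨C, fun n => (cut_le g a n x φ).trans (hC n)⟩

theorem cut_mem' (g : ι ≃ ι) (a : ι → V ≃L[ℝ] V) (x : ι) {φ : ι → V}
    (h : φ ∈ Bd (big g a).symm) : (Pi.single x (φ x) : ι → V) ∈ Bd (big g a).symm := by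
  rw [big_symm] at h ⊢
  exact cut_mem _ _ x h

omit [DecidableEq ι] in
theorem sq_norm_le (φ : ι → V) : ‖φ‖ ^ 2 ≤ ∑ x, ‖φ x‖ ^ 2 := by
  have h0 : 0 ≤ ∑ x, ‖φ x‖ ^ 2 := Finset.sum_nonneg fun _ _ => by positivity
  have h1 : ‖φ‖ ≤ √(∑ x, ‖φ x‖ ^ 2) := by
    rw [pi_norm_le_iff_of_nonneg (Real.sqrt_nonneg _)]
    intro x
    apply Real.le_sqrt_of_sq_le
    exact Finset.single_le_sum (f := fun x => ‖φ x‖ ^ 2) (fun _ _ => by positivity)
      (Finset.mem_univ x)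
  calc ‖φ‖ ^ 2 ≤ √(∑ x, ‖φ x‖ ^ 2) ^ 2 := pow_le_pow_left₀ (norm_nonneg _) h1 2
    _ = _ := Real.sq_sqrt h0

/-- the sum of the forms -/
noncomputable def Qb (b : ι → V →L[ℝ] V →L[ℝ] ℝ) : LinearMap.BilinForm ℝ (ι → V) :=
  LinearMap.mk₂ ℝ (fun φ ψ => ∑ x, b x (φ x) (ψ x))
    (fun φ φ' ψ => by
      rw [← Finset.sum_add_distrib]
      exact Finset.sum_congr rfl fun x _ => by simp)
    (fun r φ ψ => by
      rw [Finset.smul_sum]
      exact Finset.sum_congr rfl fun x _ => by simp)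
    (fun φ ψ ψ' => by
      rw [← Finset.sum_add_distrib]
      exact Finset.sum_congr rfl fun x _ => by simp)
    (fun r φ ψ => by
      rw [Finset.smul_sum]
      exact Finset.sum_congr rfl fun x _ => by simp)

omit [DecidableEq ι] in
theorem Qb_apply (b : ι → V →L[ℝ] V →L[ℝ] ℝ) (φ ψ : ι → V) :
    Qb b φ ψ = ∑ x, b x (φ x) (ψ x) := rfl

omit [DecidableEq ι] in
theorem big_inc (g : ι ≃ ι) (a : ι → V ≃L[ℝ] V) (b : ι → V →L[ℝ] V →L[ℝ] ℝ) (δ K : ℝ)
    (hδ : 0 < δ) (hinc : ∀ x v, b x v v + δ * ‖v‖ ^ 2 ≤ b (g x) (a x v) (a x v))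
    (hK : ∑ x, ‖b x‖ ≤ K) : Inc (big g a) (Qb b) K δ := by
  refine ⟨hδ, fun φ => ?_, fun φ => ?_⟩
  · rw [Qb_apply]
    refine (Finset.abs_sum_le_sum_abs _ _).trans ?_
    refine le_trans ?_ (mul_le_mul_of_nonneg_right hK (by positivity : 0 ≤ ‖φ‖ ^ 2))
    rw [Finset.sum_mul]
    refine Finset.sum_le_sum fun x _ => ?_
    have h1 : |b x (φ x) (φ x)| ≤ ‖b x‖ * ‖φ x‖ * ‖φ x‖ := (b x).le_opNorm₂ _ _
    have h2 : ‖φ x‖ ≤ ‖φ‖ := norm_le_pi_norm φ x
    calc |b x (φ x) (φ x)| ≤ ‖b x‖ * ‖φ x‖ * ‖φ x‖ := h1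
      _ = ‖b x‖ * ‖φ x‖ ^ 2 := by ring
      _ ≤ _ := mul_le_mul_of_nonneg_left (pow_le_pow_left₀ (norm_nonneg _) h2 2)
          (ContinuousLinearMap.opNorm_nonneg _)
  · rw [Qb_apply, Qb_apply,
      ← Equiv.sum_comp g (fun y => b y (big g a φ y) (big g a φ y))]
    have h1 : ∀ x, b (g x) (big g a φ (g x)) (big g a φ (g x)) =
        b (g x) (a x (φ x)) (a x (φ x)) := fun x => by rw [big_apply']
    rw [Finset.sum_congr rfl fun x _ => h1 x]
    have h2 := Finset.sum_le_sum fun x (_ : x ∈ Finset.univ) => hinc x (φ x)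
    rw [Finset.sum_add_distrib, ← Finset.mul_sum] at h2
    have h3 := mul_le_mul_of_nonneg_left (sq_norm_le φ) hδ.le
    linarith

omit [DecidableEq ι] in
theorem big_bound (g : ι ≃ ι) (a : ι → V ≃L[ℝ] V) (φ : ι → V) :
    ‖big g a φ‖ ≤ (∑ x, ‖(a x : V →L[ℝ] V)‖ + 1) * ‖φ‖ := by
  have h0 : 0 ≤ ∑ x, ‖(a x : V →L[ℝ] V)‖ := Finset.sum_nonneg fun _ _ => norm_nonneg _
  rw [pi_norm_le_iff_of_nonneg (by positivity)]
  intro y
  obtain ⟨x, rfl⟩ := g.surjective y
  rw [big_apply']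
  have h1 : ‖(a x : V →L[ℝ] V)‖ ≤ ∑ x, ‖(a x : V →L[ℝ] V)‖ :=
    Finset.single_le_sum (f := fun x => ‖(a x : V →L[ℝ] V)‖) (fun _ _ => norm_nonneg _)
      (Finset.mem_univ x)
  calc ‖a x (φ x)‖ ≤ ‖(a x : V →L[ℝ] V)‖ * ‖φ x‖ := (a x : V →L[ℝ] V).le_opNorm _
    _ ≤ (∑ x, ‖(a x : V →L[ℝ] V)‖ + 1) * ‖φ‖ :=
        mul_le_mul (by linarith) (norm_le_pi_norm φ x) (norm_nonneg _) (by positivity)

theorem Inc.mono {W : Type} [NormedAddCommGroup W] [NormedSpace ℝ W] {L : W ≃ₗ[ℝ] W}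
    {Q : LinearMap.BilinForm ℝ W} {K δ δ' : ℝ} (h : Inc L Q K δ) (h0 : 0 < δ') (h1 : δ' ≤ δ) :
    Inc L Q K δ' :=
  ⟨h0, h.bd, fun w => by
    have h2 := h.inc w
    have h3 := mul_le_mul_of_nonneg_right h1 (by positivity : 0 ≤ ‖w‖ ^ 2)
    linarith⟩

theorem fin_case [FiniteDimensional ℝ V] (g : ι ≃ ι) (a : ι → V ≃L[ℝ] V)
    (b : ι → V →L[ℝ] V →L[ℝ] ℝ) (δ : ℝ) (hδ : 0 < δ) (hsym : ∀ x v w, b x v w = b x w v)
    (hinc : ∀ x v, b x v v + δ * ‖v‖ ^ 2 ≤ b (g x) (a x v) (a x v)) :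
    ∃ (P : ι → V →L[ℝ] V) (c μ : ℝ), 0 < c ∧ 0 < μ ∧ μ < 1 ∧
      (∀ x, (P x).comp (P x) = P x) ∧
      (∀ x v, a x (P x v) = P (g x) (a x v)) ∧
      ∀ (m : ℕ) (x : ι) (v : V),
        ‖cocy g (fun y => (a y : V →L[ℝ] V)) m x (P x v)‖ ≤ c * μ ^ m * ‖P x v‖ ∧
        ‖cocy g.symm (fun y => ((a (g.symm y)).symm : V →L[ℝ] V)) m x (v - P x v)‖ ≤
          c * μ ^ m * ‖v - P x v‖ := by
  obtain ⟨M, hM⟩ : ∃ M, M = ∑ x, ‖(a x : V →L[ℝ] V)‖ + 1 := ⟨_, rfl⟩
  have hM0 : 0 < M := by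
    have h0 : 0 ≤ ∑ x, ‖(a x : V →L[ℝ] V)‖ := Finset.sum_nonneg fun _ _ => norm_nonneg _
    rw [hM]
    linarith
  obtain ⟨K, hK⟩ : ∃ K, K = ∑ x, ‖b x‖ + δ + 1 := ⟨_, rfl⟩
  have hb0 : 0 ≤ ∑ x, ‖b x‖ := Finset.sum_nonneg fun _ _ => ContinuousLinearMap.opNorm_nonneg _
  have hKb : ∑ x, ‖b x‖ ≤ K := by rw [hK]; linarith
  have hKδ : δ < K := by rw [hK]; linarith
  have hK0 : 0 < K := hδ.trans hKδ
  obtain ⟨δ₁, hδ₁⟩ : ∃ d, d = min δ (δ / M ^ 2) := ⟨_, rfl⟩
  have hδ₁0 : 0 < δ₁ := by rw [hδ₁]; exact lt_min hδ (by positivity)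
  have hδ₁K : δ₁ < K := (by rw [hδ₁]; exact min_le_left _ _ : δ₁ ≤ δ).trans_lt hKδ
  have hI0 := big_inc g a b δ K hδ hinc hKb
  have hbound : ∀ φ, ‖big g a φ‖ ≤ M * ‖φ‖ := fun φ => by rw [hM]; exact big_bound g a φ
  have hI1 : Inc (big g a) (Qb b) K δ₁ := hI0.mono hδ₁0 (by rw [hδ₁]; exact min_le_left _ _)
  have hI2 : Inc (big g a).symm (-Qb b) K δ₁ :=
    (hI0.inv hM0 hbound).mono hδ₁0 (by rw [hδ₁]; exact min_le_right _ _)
  have hQs : ∀ φ ψ, Qb b φ ψ = Qb b ψ φ := fun φ ψ => by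
    rw [Qb_apply, Qb_apply]
    exact Finset.sum_congr rfl fun x _ => hsym x _ _
  have hc : IsCompl (Bd (big g a)) (Bd (big g a).symm) := isCompl_Bd hI0 hQs hM0 hbound
  obtain ⟨T, hT⟩ : ∃ T, T = (Bd (big g a)).projection (Bd (big g a).symm) hc := ⟨_, rfl⟩
  have hTmem : ∀ φ, T φ ∈ Bd (big g a) := fun φ => by
    rw [hT]; exact Submodule.projection_apply_mem hc φ
  have hTmem' : ∀ φ, φ - T φ ∈ Bd (big g a).symm := fun φ => by
    rw [hT, ← Submodule.projection_eq_self_sub_projection hc]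
    exact Submodule.projection_apply_mem hc.symm φ
  have hTl : ∀ φ, φ ∈ Bd (big g a) → T φ = φ := fun φ h => by
    rw [hT]; exact Submodule.projection_apply_of_mem_left hc h
  have hTr : ∀ φ, φ ∈ Bd (big g a).symm → T φ = 0 := fun φ h => by
    rw [hT]; exact Submodule.projection_apply_of_mem_right hc h
  let P : ι → V →L[ℝ] V := fun x => LinearMap.toContinuousLinearMap
    ((LinearMap.proj x).comp (T.comp (LinearMap.single ℝ (fun _ : ι => V) x)))
  have hP : ∀ x v, P x v = T (Pi.single x v) x := fun x v => rfl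
  have key1 : ∀ x v, T (Pi.single x v) = Pi.single x (P x v) := by
    intro x v
    have h1 : (Pi.single x v : ι → V) = Pi.single x (T (Pi.single x v) x) +
        Pi.single x (((Pi.single x v : ι → V) - T (Pi.single x v)) x) := by
      rw [← Pi.single_add, Pi.sub_apply, Pi.single_eq_same, add_sub_cancel]
    have h2 := hTl _ (cut_mem g a x (hTmem (Pi.single x v)))
    have h3 := hTr _ (cut_mem' g a x (hTmem' (Pi.single x v)))
    calc T (Pi.single x v) = T (Pi.single x (T (Pi.single x v) x) +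
          Pi.single x (((Pi.single x v : ι → V) - T (Pi.single x v)) x)) := by rw [← h1]
      _ = _ := by rw [map_add, h2, h3, add_zero, hP]
  have key2 : ∀ x v, (Pi.single x (v - P x v) : ι → V) ∈ Bd (big g a).symm := by
    intro x v
    have h1 : (Pi.single x (v - P x v) : ι → V) = Pi.single x v - T (Pi.single x v) := by
      rw [key1, Pi.single_sub]
    rw [h1]
    exact hTmem' _
  have key3 : ∀ x v, (Pi.single x (P x v) : ι → V) ∈ Bd (big g a) := by
    intro x v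
    rw [← key1]
    exact hTmem _
  have key4 : ∀ φ, T (big g a φ) = big g a (T φ) := by
    intro φ
    have h1 : big g a φ = big g a (T φ) + big g a (φ - T φ) := by
      rw [← map_add, add_sub_cancel]
    have h2 := hTl _ (Bd_map (hTmem φ))
    have h3 := hTr _ (Bd_symm (hTmem' φ))
    rw [LinearEquiv.symm_symm] at h3
    rw [h1, map_add, h2, h3, add_zero]
  refine ⟨P, √(K / δ₁), √(1 - δ₁ / K), Real.sqrt_pos.2 (by positivity), ?_, ?_, ?_, ?_, ?_⟩
  · apply Real.sqrt_pos.2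
    rw [sub_pos, div_lt_one hK0]
    exact hδ₁K
  · rw [Real.sqrt_lt' one_pos]
    have : 0 < δ₁ / K := by positivity
    linarith
  · intro x
    ext v
    change P x (P x v) = P x v
    rw [hP x (P x v), ← key1, hTl _ (hTmem _)]
    rfl
  · intro x v
    have h1 := congrFun (key4 (Pi.single x v)) (g x)
    rw [big_single, key1 x v, big_single, Pi.single_eq_same] at h1
    rw [← h1]
    rfl
  · intro m x v
    constructor
    · rw [← norm_cocy]
      have h1 := decay' hI1 hδ₁K.le (key3 x v) m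
      rw [Pi.norm_single] at h1
      exact h1
    · have h1 := norm_cocy g.symm (fun y => (a (g.symm y)).symm) m x (v - P x v)
      rw [← h1, ← big_symm]
      have h2 := decay' hI2 hδ₁K.le (key2 x v) m
      rw [Pi.norm_single] at h2
      exact h2

end

theorem lin : S_LIN := by
  intro V _ _ _ X f S hS hfS A B δ hδ hsym _ hinc
  classical
  have hmem : ∀ x, x ∈ S ↔ f x ∈ S := by
    intro x
    constructor
    · intro hx
      rw [← hfS]
      exact mem_image_of_mem f hx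
    · intro hx
      rw [← hfS] at hx
      obtain ⟨y, hy, hyx⟩ := hx
      rw [← f.injective hyx]
      exact hy
  let _ : Fintype S := hS.fintype
  let g : S ≃ S := f.subtypeEquiv hmem
  have hg : ∀ x : S, (g x : X) = f x := fun x => rfl
  have hg' : ∀ x : S, (g.symm x : X) = f.symm x := fun x => rfl
  obtain ⟨P, c, μ, hc, hμ, hμ1, h1, h2, h3⟩ := fin_case g (fun x : S => A x) (fun x : S => B x) δ hδ
    (fun x v w => hsym x x.2 v w) (fun x v => hinc x x.2 v)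
  have hcocy : ∀ (m : ℕ) (x : S), cocy f (fun y => (A y : V →L[ℝ] V)) m x =
      cocy g (fun y : S => (A y : V →L[ℝ] V)) m x := by
    intro m
    induction m with
    | zero => intro x; rfl
    | succ m ih =>
      intro x
      change (cocy f _ m (f x)).comp _ = (cocy g _ m (g x)).comp _
      rw [← ih (g x), hg]
  have hcocy' : ∀ (m : ℕ) (x : S),
      cocy f.symm (fun y => ((A (f.symm y)).symm : V →L[ℝ] V)) m x =
        cocy g.symm (fun y : S => ((A (g.symm y : S)).symm : V →L[ℝ] V)) m x := by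
    intro m
    induction m with
    | zero => intro x; rfl
    | succ m ih =>
      intro x
      change (cocy f.symm _ m (f.symm x)).comp _ = (cocy g.symm _ m (g.symm x)).comp _
      rw [← ih (g.symm x), hg']
      rfl
  refine ⟨fun x => if h : x ∈ S then P ⟨x, h⟩ else 0, c, μ, hc, hμ, hμ1, ?_, ?_, ?_⟩
  · intro x hx
    simp only [dif_pos hx]
    exact h1 ⟨x, hx⟩
  · intro x hx v
    have hfx : f x ∈ S := (hmem x).1 hx
    simp only [dif_pos hx, dif_pos hfx]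
    exact h2 ⟨x, hx⟩ v
  · intro m x hx v
    simp only [dif_pos hx]
    have h4 := h3 m ⟨x, hx⟩ v
    have h5 := hcocy m ⟨x, hx⟩
    have h6 := hcocy' m ⟨x, hx⟩
    rw [← h5, ← h6] at h4
    exact h4

end Pool.Agent.Y590.MH
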